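import Mathlib

/-!
Definitions for the problem `MP_25e24e_co` (planar rep-tiles with holes).
-/

namespace Pool.Agent.Lib.MP_25e24e_co

open scoped Pointwise

variable {P : Type*} [NormedAddCommGroup P] [NormedSpace ℝ P]

/-- A tile: a nonempty bounded set which equals the closure of its interior. -/
def IsTile (X : Set P) : Prop :=
  X.Nonempty ∧ Bornology.IsBounded X ∧ X = closure (interior X)

/-- `X` is an `n`-reptile: a tile which is the union of `n` images under isometries `g i` of the
space of the set `n ^ (-1/2) • X`, where these pieces have pairwise disjoint interiors. -/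
def IsReptile (n : ℕ) (X : Set P) : Prop :=
  IsTile X ∧ ∃ g : Fin n → (P ≃ᵢ P),
    X = ⋃ i, g i '' ((Real.sqrt n)⁻¹ • X) ∧
    ∀ i j, i ≠ j → Disjoint (interior (g i '' ((Real.sqrt n)⁻¹ • X)))
      (interior (g j '' ((Real.sqrt n)⁻¹ • X)))

/-- `X` has a hole: its complement has a bounded connected component. -/
def HasHole (X : Set P) : Prop :=
  ∃ x, x ∉ X ∧ Bornology.IsBounded (connectedComponentIn Xᶜ x)

end Pool.Agent.Lib.MP_25e24e_co
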