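import Pool.Agent.Lib.MP_25e24e_co.Levy

/-!
The Lévy dragon has a hole: it contains the boundary of a convex heptagon, but not the point
`1/2 + (5/8) i` inside it.
-/

namespace Pool.Agent.Lib.MP_25e24e_co

open Complex Set

theorem n0 : (⟨5 / 4, -1⟩ : ℂ) ∉ T := by
  intro h0
  rcases mem_T_cases h0 with h | h
  · have := mem_T_bound h; norm_num at this
  · have := mem_T_bound h; norm_num at this

theorem n1 : (⟨5 / 4, -3 / 4⟩ : ℂ) ∉ T := by
  intro h0
  rcases mem_T_cases h0 with h | h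
  · have := mem_T_bound h; norm_num at this
  · have := mem_T_bound h; norm_num at this

theorem n2 : (⟨3 / 2, -1 / 2⟩ : ℂ) ∉ T := by
  intro h0
  rcases mem_T_cases h0 with h | h
  · have := mem_T_bound h; norm_num at this
  · have := mem_T_bound h; norm_num at this

theorem n3 : (⟨1, -1 / 2⟩ : ℂ) ∉ T := by
  intro h0
  rcases mem_T_cases h0 with h | h
  · have := mem_T_bound h; norm_num at this
  · exact n2 (by convert h using 2 <;> norm_num)

theorem n4 : (⟨0, -1⟩ : ℂ) ∉ T := by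
  intro h0
  rcases mem_T_cases h0 with h | h
  · have := mem_T_bound h; norm_num at this
  · have := mem_T_bound h; norm_num at this

theorem n5 : (⟨1, -1⟩ : ℂ) ∉ T := by
  intro h0
  rcases mem_T_cases h0 with h | h
  · have := mem_T_bound h; norm_num at this
  · have := mem_T_bound h; norm_num at this

theorem n6 : (⟨1 / 2, -1 / 2⟩ : ℂ) ∉ T := by
  intro h0
  rcases mem_T_cases h0 with h | h
  · exact n4 (by convert h using 2 <;> norm_num)
  · exact n5 (by convert h using 2 <;> norm_num)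

theorem n7 : (⟨1 / 2, 0⟩ : ℂ) ∉ T := by
  intro h0
  rcases mem_T_cases h0 with h | h
  · exact n6 (by convert h using 2 <;> norm_num)
  · exact n6 (by convert h using 2 <;> norm_num)

theorem n8 : (⟨3 / 4, 1 / 4⟩ : ℂ) ∉ T := by
  intro h0
  rcases mem_T_cases h0 with h | h
  · exact n3 (by convert h using 2 <;> norm_num)
  · exact n7 (by convert h using 2 <;> norm_num)

theorem n9 : (⟨1, 1 / 4⟩ : ℂ) ∉ T := by
  intro h0
  rcases mem_T_cases h0 with h | h
  · exact n1 (by convert h using 2 <;> norm_num)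
  · exact n8 (by convert h using 2 <;> norm_num)

theorem n10 : (⟨9 / 8, 1 / 8⟩ : ℂ) ∉ T := by
  intro h0
  rcases mem_T_cases h0 with h | h
  · exact n0 (by convert h using 2 <;> norm_num)
  · exact n9 (by convert h using 2 <;> norm_num)

theorem n11 : (⟨-1 / 2, -1 / 2⟩ : ℂ) ∉ T := by
  intro h0
  rcases mem_T_cases h0 with h | h
  · have := mem_T_bound h; norm_num at this
  · have := mem_T_bound h; norm_num at this

theorem n12 : (⟨0, -1 / 2⟩ : ℂ) ∉ T := by
  intro h0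
  rcases mem_T_cases h0 with h | h
  · exact n11 (by convert h using 2 <;> norm_num)
  · have := mem_T_bound h; norm_num at this

theorem n13 : (⟨1 / 4, 1 / 4⟩ : ℂ) ∉ T := by
  intro h0
  rcases mem_T_cases h0 with h | h
  · exact n7 (by convert h using 2 <;> norm_num)
  · exact n12 (by convert h using 2 <;> norm_num)

theorem n14 : (⟨-1 / 4, -3 / 4⟩ : ℂ) ∉ T := by
  intro h0
  rcases mem_T_cases h0 with h | h
  · have := mem_T_bound h; norm_num at this
  · have := mem_T_bound h; norm_num at this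

theorem n15 : (⟨0, 1 / 4⟩ : ℂ) ∉ T := by
  intro h0
  rcases mem_T_cases h0 with h | h
  · exact n13 (by convert h using 2 <;> norm_num)
  · exact n14 (by convert h using 2 <;> norm_num)

theorem n16 : (⟨-1 / 4, -1⟩ : ℂ) ∉ T := by
  intro h0
  rcases mem_T_cases h0 with h | h
  · have := mem_T_bound h; norm_num at this
  · have := mem_T_bound h; norm_num at this

theorem n17 : (⟨-1 / 8, 1 / 8⟩ : ℂ) ∉ T := by
  intro h0
  rcases mem_T_cases h0 with h | h
  · exact n15 (by convert h using 2 <;> norm_num)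
  · exact n16 (by convert h using 2 <;> norm_num)

theorem n18 : (⟨1 / 2, 5 / 8⟩ : ℂ) ∉ T := by
  intro h0
  rcases mem_T_cases h0 with h | h
  · exact n10 (by convert h using 2 <;> norm_num)
  · exact n17 (by convert h using 2 <;> norm_num)

theorem edge1 {x y : ℝ} (hy : y = 3 / 8) (h0 : 3 / 8 ≤ x) (h1 : x ≤ 1 / 2) :
    (⟨x, y⟩ : ℂ) ∈ T := by
  have h := f2_T (f1_T (f1_T (f1_T (f1_T (f1_T
    (top_edge (t := 4 - 8 * x) (by linarith) (by linarith)))))))
  simp only [f1_mk, f2_mk] at h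
  convert h using 2 <;> linarith

theorem edge2 {x y : ℝ} (hy : y = 3 / 8) (h0 : 1 / 2 ≤ x) (h1 : x ≤ 5 / 8) :
    (⟨x, y⟩ : ℂ) ∈ T := by
  have h := f1_T (f2_T (f2_T (f2_T (f2_T (f2_T
    (top_edge (t := 5 - 8 * x) (by linarith) (by linarith)))))))
  simp only [f1_mk, f2_mk] at h
  convert h using 2 <;> linarith

theorem edge3 {x y : ℝ} (hy : y - x = - (1 / 4)) (h0 : 5 / 8 ≤ x) (h1 : x ≤ 3 / 4) :
    (⟨x, y⟩ : ℂ) ∈ T := by
  have h := f1_T (f2_T (f2_T (f2_T (f2_T
    (top_edge (t := 6 - 8 * x) (by linarith) (by linarith))))))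
  simp only [f1_mk, f2_mk] at h
  convert h using 2 <;> linarith

theorem edge4 {x y : ℝ} (hx : x = 3 / 4) (h0 : 1 / 2 ≤ y) (h1 : y ≤ 3 / 4) :
    (⟨x, y⟩ : ℂ) ∈ T := by
  have h := f1_T (f2_T (f2_T (f2_T
    (top_edge (t := 3 - 4 * y) (by linarith) (by linarith)))))
  simp only [f1_mk, f2_mk] at h
  convert h using 2 <;> linarith

theorem edge5 {x y : ℝ} (hy : x + y = 3 / 2) (h0 : 1 / 2 ≤ x) (h1 : x ≤ 3 / 4) :
    (⟨x, y⟩ : ℂ) ∈ T := by
  have h := f1_T (f2_T (f2_T
    (top_edge (t := 4 * x - 2) (by linarith) (by linarith))))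
  simp only [f1_mk, f2_mk] at h
  convert h using 2 <;> linarith

theorem edge6 {x y : ℝ} (hy : y - x = 1 / 2) (h0 : 1 / 4 ≤ x) (h1 : x ≤ 1 / 2) :
    (⟨x, y⟩ : ℂ) ∈ T := by
  have h := f2_T (f1_T (f1_T
    (top_edge (t := 4 * x - 1) (by linarith) (by linarith))))
  simp only [f1_mk, f2_mk] at h
  convert h using 2 <;> linarith

theorem edge7 {x y : ℝ} (hx : x = 1 / 4) (h0 : 1 / 2 ≤ y) (h1 : y ≤ 3 / 4) :
    (⟨x, y⟩ : ℂ) ∈ T := by
  have h := f2_T (f1_T (f1_T (f1_T
    (top_edge (t := 4 * y - 2) (by linarith) (by linarith)))))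
  simp only [f1_mk, f2_mk] at h
  convert h using 2 <;> linarith

theorem edge8 {x y : ℝ} (hy : x + y = 3 / 4) (h0 : 1 / 4 ≤ x) (h1 : x ≤ 3 / 8) :
    (⟨x, y⟩ : ℂ) ∈ T := by
  have h := f2_T (f1_T (f1_T (f1_T (f1_T
    (top_edge (t := 3 - 8 * x) (by linarith) (by linarith))))))
  simp only [f1_mk, f2_mk] at h
  convert h using 2 <;> linarith

/-- the open heptagon -/
def PO : Set ℂ := {z | 3 / 8 < z.im ∧ - (1 / 4) < z.im - z.re ∧ z.re < 3 / 4 ∧
  z.re + z.im < 3 / 2 ∧ z.im - z.re < 1 / 2 ∧ 1 / 4 < z.re ∧ 3 / 4 < z.re + z.im}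

/-- the closed heptagon -/
def PC : Set ℂ := {z | 3 / 8 ≤ z.im ∧ - (1 / 4) ≤ z.im - z.re ∧ z.re ≤ 3 / 4 ∧
  z.re + z.im ≤ 3 / 2 ∧ z.im - z.re ≤ 1 / 2 ∧ 1 / 4 ≤ z.re ∧ 3 / 4 ≤ z.re + z.im}

theorem boundary_subset : PC \ PO ⊆ T := by
  rintro ⟨x, y⟩ ⟨⟨h1, h2, h3, h4, h5, h6, h7⟩, hn⟩
  simp only at h1 h2 h3 h4 h5 h6 h7
  simp only [PO, mem_ofPred_eq, not_and, not_lt] at hn
  by_cases c1 : y ≤ 3 / 8
  · by_cases hx : x ≤ 1 / 2
    · exact edge1 (by linarith) (by linarith) hx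
    · exact edge2 (by linarith) (by linarith) (by linarith)
  · by_cases c2 : y - x ≤ - (1 / 4)
    · exact edge3 (by linarith) (by linarith) (by linarith)
    · by_cases c3 : 3 / 4 ≤ x
      · exact edge4 (by linarith) (by linarith) (by linarith)
      · by_cases c4 : 3 / 2 ≤ x + y
        · exact edge5 (by linarith) (by linarith) (by linarith)
        · by_cases c5 : 1 / 2 ≤ y - x
          · exact edge6 (by linarith) (by linarith) (by linarith)
          · by_cases c6 : x ≤ 1 / 4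
            · exact edge7 (by linarith) (by linarith) (by linarith)
            · have c7 : x + y ≤ 3 / 4 :=
                hn (by linarith) (by linarith) (by linarith) (by linarith) (by linarith)
                  (by linarith)
              exact edge8 (by linarith) (by linarith) (by linarith)

theorem isOpen_PO : IsOpen PO := by
  have : PO = {z | 3 / 8 < z.im} ∩ {z | - (1 / 4) < z.im - z.re} ∩ {z | z.re < 3 / 4} ∩
      {z | z.re + z.im < 3 / 2} ∩ {z | z.im - z.re < 1 / 2} ∩ {z | 1 / 4 < z.re} ∩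
      {z | 3 / 4 < z.re + z.im} := by
    ext z; simp only [PO, mem_ofPred_eq, mem_inter_iff]; tauto
  rw [this]
  refine IsOpen.inter (IsOpen.inter (IsOpen.inter (IsOpen.inter (IsOpen.inter (IsOpen.inter
    ?_ ?_) ?_) ?_) ?_) ?_) ?_
  all_goals exact isOpen_lt (by fun_prop) (by fun_prop)

theorem isClosed_PC : IsClosed PC := by
  have : PC = {z | 3 / 8 ≤ z.im} ∩ {z | - (1 / 4) ≤ z.im - z.re} ∩ {z | z.re ≤ 3 / 4} ∩
      {z | z.re + z.im ≤ 3 / 2} ∩ {z | z.im - z.re ≤ 1 / 2} ∩ {z | 1 / 4 ≤ z.re} ∩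
      {z | 3 / 4 ≤ z.re + z.im} := by
    ext z; simp only [PC, mem_ofPred_eq, mem_inter_iff]; tauto
  rw [this]
  refine IsClosed.inter (IsClosed.inter (IsClosed.inter (IsClosed.inter (IsClosed.inter
    (IsClosed.inter ?_ ?_) ?_) ?_) ?_) ?_) ?_
  all_goals exact isClosed_le (by fun_prop) (by fun_prop)

theorem isBounded_PO : Bornology.IsBounded PO := by
  rw [isBounded_iff_forall_norm_le]
  refine ⟨4, ?_⟩
  rintro z ⟨h1, h2, h3, h4, h5, h6, h7⟩
  have e1 : |z.re| ≤ 2 := by rw [abs_le]; constructor <;> linarith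
  have e2 : |z.im| ≤ 2 := by rw [abs_le]; constructor <;> linarith
  calc ‖z‖ ≤ |z.re| + |z.im| := Complex.norm_le_abs_re_add_abs_im z
    _ ≤ 4 := by linarith

/-- The component of `1/2 + (5/8) i` in the complement of `T` is bounded. -/
theorem hole : (⟨1 / 2, 5 / 8⟩ : ℂ) ∉ T ∧
    Bornology.IsBounded (connectedComponentIn Tᶜ (⟨1 / 2, 5 / 8⟩ : ℂ)) := by
  refine ⟨n18, ?_⟩
  refine isBounded_PO.subset ?_
  have hpre : IsPreconnected (connectedComponentIn Tᶜ (⟨1 / 2, 5 / 8⟩ : ℂ)) :=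
    isPreconnected_connectedComponentIn
  have hsub : connectedComponentIn Tᶜ (⟨1 / 2, 5 / 8⟩ : ℂ) ⊆ Tᶜ :=
    connectedComponentIn_subset _ _
  refine hpre.subset_left_of_subset_union isOpen_PO isClosed_PC.isOpen_compl ?_ ?_ ?_
  · rw [Set.disjoint_left]
    rintro z ⟨h1, h2, h3, h4, h5, h6, h7⟩ hz
    exact hz ⟨h1.le, h2.le, h3.le, h4.le, h5.le, h6.le, h7.le⟩
  · intro z hz
    by_cases hz1 : z ∈ PO
    · exact Or.inl hz1
    · right
      intro hz2
      exact hsub hz (boundary_subset ⟨hz2, hz1⟩)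
  · refine ⟨⟨1 / 2, 5 / 8⟩, mem_connectedComponentIn n18, ?_⟩
    simp only [PO, mem_ofPred_eq]
    norm_num

end Pool.Agent.Lib.MP_25e24e_co
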