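import Pool.Agent.Lib.MP_25e24e_co.Levy

/-!
The Lévy dragon has interior points, since countably many copies of it cover the plane, and it is
the closure of its interior.
-/

namespace Pool.Agent.Lib.MP_25e24e_co

open Complex Set

theorem I_pow_int (k : ℕ) : ∃ p q : ℤ, (I : ℂ) ^ k = p + q * I ∧ Odd (p + q) := by
  induction k with
  | zero => exact ⟨1, 0, by simp, by decide⟩
  | succ k ih =>
    obtain ⟨p, q, h, ho⟩ := ih
    refine ⟨-q, p, ?_, ?_⟩
    · rw [pow_succ, h]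
      push_cast
      have : (I : ℂ) * I = -1 := I_mul_I
      linear_combination (q : ℂ) * this
    · obtain ⟨r, hr⟩ := ho
      exact ⟨r - q, by omega⟩

/-- The copies of `A n` placed along all the oriented unit segments of the lattice cover
the plane. -/
theorem cover (N : ℕ) : ∀ z : ℂ, ∃ m n : ℤ, ∃ k : ℕ, ∃ x ∈ A N,
    z = (m + n * I) + I ^ k * x := by
  induction N with
  | zero =>
    intro z
    refine ⟨⌊z.re⌋, ⌊z.im⌋, 0, z - (⌊z.re⌋ + ⌊z.im⌋ * I), ?_, by ring⟩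
    have h1 := Int.floor_le z.re
    have h2 := Int.lt_floor_add_one z.re
    have h3 := Int.floor_le z.im
    have h4 := Int.lt_floor_add_one z.im
    simp only [A, D, mem_ofPred_eq, sub_re, sub_im, add_re, add_im, mul_re, mul_im, intCast_re,
      intCast_im, I_re, I_im]
    nlinarith
  | succ N ih =>
    intro z
    obtain ⟨m, n, k, x, hx, hz⟩ := ih ((1 - I) * z)
    have hI : (I : ℂ) * I = -1 := I_mul_I
    have hz' : z = (1 + I) / 2 * ((m + n * I) + I ^ k * x) := by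
      rw [← hz]
      linear_combination (z / 2) * hI
    rcases Int.even_or_odd (m + n) with he | ho
    · obtain ⟨r, hr⟩ := he
      have hm : (m : ℂ) = 2 * r - n := by
        have : m = 2 * r - n := by omega
        rw [this]; push_cast; ring
      refine ⟨r - n, r, k, f1 x, Or.inl ⟨x, hx, rfl⟩, ?_⟩
      rw [hz', f1, hm]
      push_cast
      linear_combination (n / 2 : ℂ) * hI
    · obtain ⟨p, q, hpq, hodd⟩ := I_pow_int (k + 1)
      obtain ⟨r, hr⟩ : Even ((m - p) + (n - q)) := by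
        obtain ⟨a, ha⟩ := ho
        obtain ⟨b, hb⟩ := hodd
        exact ⟨a - b, by omega⟩
      have hm : (m : ℂ) = 2 * r - (n - q) + p := by
        have : m = 2 * r - (n - q) + p := by omega
        rw [this]; push_cast; ring
      refine ⟨r - (n - q), r, k + 1, f2 x, Or.inr ⟨x, hx, rfl⟩, ?_⟩
      have hIk : (I : ℂ) ^ (k + 1) = I ^ k * I := pow_succ I k
      have h5 : (I : ℂ) ^ k * I = p + q * I := by rw [← hIk, hpq]
      have h6 : (I : ℂ) ^ k = -(I * (p + q * I)) := by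
        rw [← h5]; linear_combination ((I : ℂ) ^ k) * hI
      rw [hz', f2, hm, hpq, h6]
      push_cast
      linear_combination ((n - q : ℂ) / 2 - (p + q * I) / 2 * x) * hI

/-- The maps `x ↦ (m + n i) + i^k x`. -/
noncomputable def place (t : ℤ × ℤ × Fin 4) : ℂ ≃ₜ ℂ :=
  (Homeomorph.mulLeft₀ ((I : ℂ) ^ (t.2.2 : ℕ)) (pow_ne_zero _ I_ne_zero)).trans
    (Homeomorph.addLeft ((t.1 : ℂ) + t.2.1 * I))

theorem place_apply (t : ℤ × ℤ × Fin 4) (x : ℂ) :
    place t x = (t.1 + t.2.1 * I) + I ^ (t.2.2 : ℕ) * x := by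
  simp [place]

theorem I_pow_mod (k : ℕ) : (I : ℂ) ^ k = I ^ (k % 4) := by
  conv_lhs => rw [← Nat.div_add_mod k 4, pow_add, pow_mul, I_pow_four, one_pow, one_mul]

theorem cover' (N : ℕ) (z : ℂ) : ∃ t : ℤ × ℤ × Fin 4, z ∈ place t '' A N := by
  obtain ⟨m, n, k, x, hx, hz⟩ := cover N z
  refine ⟨(m, n, ⟨k % 4, Nat.mod_lt _ (by norm_num)⟩), x, hx, ?_⟩
  rw [place_apply, hz, I_pow_mod k]

theorem norm_le_of_mem_D {x : ℂ} (hx : x ∈ D) : ‖x‖ ≤ 4 := by
  have hz' : (x.re - 1 / 2) ^ 2 + x.im ^ 2 ≤ 25 / 16 := hx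
  have h1 : |x.re| ≤ 2 := by
    rw [abs_le]
    constructor <;> nlinarith [sq_nonneg x.im, sq_nonneg (x.re - 1 / 2)]
  have h2 : |x.im| ≤ 2 := by
    rw [abs_le]
    constructor <;> nlinarith [sq_nonneg x.im, sq_nonneg (x.re - 1 / 2)]
  calc ‖x‖ ≤ |x.re| + |x.im| := Complex.norm_le_abs_re_add_abs_im x
    _ ≤ 4 := by linarith

/-- Countably many copies of `T` cover the plane. -/
theorem cover_T : (⋃ t : ℤ × ℤ × Fin 4, place t '' T) = univ := by
  rw [eq_univ_iff_forall]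
  intro z
  choose g hg using fun N => cover' N z
  -- the positions `g N` lie in a finite set
  obtain ⟨R, hR⟩ := exists_nat_ge (‖z‖ + 4)
  have hfin : ∀ N, g N ∈ ((Finset.Icc (-(R : ℤ)) R) ×ˢ ((Finset.Icc (-(R : ℤ)) R) ×ˢ
      (Finset.univ : Finset (Fin 4))) : Finset (ℤ × ℤ × Fin 4)) := by
    intro N
    obtain ⟨x, hx, hxz⟩ := hg N
    have hxD : x ∈ D := A_antitone (Nat.zero_le N) hx
    rw [place_apply] at hxz
    have h1 : ‖(((g N).1 : ℂ) + (g N).2.1 * I)‖ ≤ R := by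
      have : (((g N).1 : ℂ) + (g N).2.1 * I) = z - I ^ ((g N).2.2 : ℕ) * x := by
        rw [← hxz]; ring
      rw [this]
      calc ‖z - I ^ ((g N).2.2 : ℕ) * x‖ ≤ ‖z‖ + ‖I ^ ((g N).2.2 : ℕ) * x‖ := norm_sub_le _ _
        _ = ‖z‖ + ‖x‖ := by rw [norm_mul, norm_pow, Complex.norm_I, one_pow, one_mul]
        _ ≤ ‖z‖ + 4 := by linarith [norm_le_of_mem_D hxD]
        _ ≤ R := hR
    have h2 : |((g N).1 : ℝ)| ≤ R := by
      have := Complex.abs_re_le_norm (((g N).1 : ℂ) + (g N).2.1 * I)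
      simp only [add_re, intCast_re, mul_re, I_re, mul_zero, intCast_im, I_im, mul_one, sub_self,
        add_zero] at this
      linarith
    have h3 : |((g N).2.1 : ℝ)| ≤ R := by
      have := Complex.abs_im_le_norm (((g N).1 : ℂ) + (g N).2.1 * I)
      simp only [add_im, intCast_im, mul_im, intCast_re, I_im, mul_one, I_re, mul_zero, add_zero,
        zero_add] at this
      linarith
    rw [abs_le] at h2 h3
    simp only [Finset.mem_product, Finset.mem_Icc, Finset.mem_univ, and_true]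
    refine ⟨⟨?_, ?_⟩, ⟨?_, ?_⟩⟩
    · exact_mod_cast h2.1
    · exact_mod_cast h2.2
    · exact_mod_cast h3.1
    · exact_mod_cast h3.2
  -- pigeonhole
  obtain ⟨t, ht⟩ : ∃ t, {N | g N = t}.Infinite := by
    by_contra hcon
    push Not at hcon
    have : (⋃ t ∈ ((Finset.Icc (-(R : ℤ)) R) ×ˢ ((Finset.Icc (-(R : ℤ)) R) ×ˢ
      (Finset.univ : Finset (Fin 4))) : Finset (ℤ × ℤ × Fin 4)), {N | g N = t}).Finite :=
      Set.Finite.biUnion (Finset.finite_toSet _) (fun t _ => by simpa using hcon t)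
    refine Set.infinite_univ (this.subset ?_)
    intro N _
    exact mem_biUnion (hfin N) rfl
  refine mem_iUnion.2 ⟨t, ?_⟩
  obtain ⟨N0, hN0⟩ := ht.nonempty
  obtain ⟨x, -, hx⟩ := hg N0
  rw [hN0] at hx
  refine ⟨x, mem_iInter.2 fun n => ?_, hx⟩
  obtain ⟨N, hN, hnN⟩ := ht.exists_gt n
  obtain ⟨y, hy, hyz⟩ := hg N
  rw [show g N = t from hN] at hyz
  have : x = y := (place t).injective (hx.trans hyz.symm)
  rw [this]
  exact A_antitone hnN.le hy

theorem interior_T_nonempty : (interior T).Nonempty := by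
  have hclosed : ∀ t : ℤ × ℤ × Fin 4, IsClosed (place t '' T) := fun t =>
    (isCompact_T.image (place t).continuous).isClosed
  obtain ⟨t, ht⟩ := nonempty_interior_of_iUnion_of_closed hclosed cover_T
  rw [← (place t).image_interior] at ht
  exact ht.of_image

/-- `f1` and `f2` as homeomorphisms -/
noncomputable def h1 : ℂ ≃ₜ ℂ := Homeomorph.mulLeft₀ ((1 + I) / 2 : ℂ) (by
  intro h
  have := congrArg Complex.re h
  simp at this)

noncomputable def h2 : ℂ ≃ₜ ℂ := (Homeomorph.mulLeft₀ ((1 - I) / 2 : ℂ) (by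
  intro h
  have := congrArg Complex.re h
  simp at this)).trans (Homeomorph.addRight ((1 + I) / 2))

theorem h1_eq : (h1 : ℂ → ℂ) = f1 := by
  ext z; simp [h1, f1]

theorem h2_eq : (h2 : ℂ → ℂ) = f2 := by
  ext z; simp [h2, f2]

theorem f1_interior {z : ℂ} (h : z ∈ interior T) : f1 z ∈ interior T := by
  have h1' : f1 '' interior T ⊆ interior T := by
    rw [← h1_eq, h1.image_interior]
    apply interior_mono
    rintro _ ⟨w, hw, rfl⟩
    rw [h1_eq]
    exact f1_T hw
  exact h1' ⟨z, h, rfl⟩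

theorem f2_interior {z : ℂ} (h : z ∈ interior T) : f2 z ∈ interior T := by
  have h1' : f2 '' interior T ⊆ interior T := by
    rw [← h2_eq, h2.image_interior]
    apply interior_mono
    rintro _ ⟨w, hw, rfl⟩
    rw [h2_eq]
    exact f2_T hw
  exact h1' ⟨z, h, rfl⟩

theorem norm_c : ‖((1 + I) / 2 : ℂ)‖ = (Real.sqrt 2)⁻¹ := by
  rw [← Real.sqrt_inv, Complex.norm_eq_sqrt_sq_add_sq]
  congr 1
  simp
  norm_num

theorem norm_c' : ‖((1 - I) / 2 : ℂ)‖ = (Real.sqrt 2)⁻¹ := by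
  rw [← Real.sqrt_inv, Complex.norm_eq_sqrt_sq_add_sq]
  congr 1
  simp
  norm_num

theorem dist_f1 (z w : ℂ) : dist (f1 z) (f1 w) = (Real.sqrt 2)⁻¹ * dist z w := by
  rw [dist_eq_norm, dist_eq_norm, f1, f1, ← mul_sub, norm_mul, norm_c]

theorem dist_f2 (z w : ℂ) : dist (f2 z) (f2 w) = (Real.sqrt 2)⁻¹ * dist z w := by
  rw [dist_eq_norm, dist_eq_norm, f2, f2, add_sub_add_right_eq_sub, ← mul_sub, norm_mul, norm_c']

theorem T_near_interior (n : ℕ) : ∀ z ∈ T, ∃ w ∈ interior T,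
    dist z w ≤ ((Real.sqrt 2)⁻¹) ^ n * 8 := by
  induction n with
  | zero =>
    intro z hz
    obtain ⟨w, hw⟩ := interior_T_nonempty
    refine ⟨w, hw, ?_⟩
    rw [dist_eq_norm]
    calc ‖z - w‖ ≤ ‖z‖ + ‖w‖ := norm_sub_le _ _
      _ ≤ 4 + 4 := add_le_add (norm_le_of_mem_D (T_subset_D hz))
          (norm_le_of_mem_D (T_subset_D (interior_subset hw)))
      _ = (Real.sqrt 2)⁻¹ ^ 0 * 8 := by norm_num
  | succ n ih =>
    intro z hz
    rw [T_eq] at hz
    rcases hz with ⟨x, hx, rfl⟩ | ⟨x, hx, rfl⟩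
    · obtain ⟨w, hw, hd⟩ := ih x hx
      refine ⟨f1 w, f1_interior hw, ?_⟩
      rw [dist_f1, pow_succ]
      have : 0 ≤ (Real.sqrt 2)⁻¹ := by positivity
      nlinarith
    · obtain ⟨w, hw, hd⟩ := ih x hx
      refine ⟨f2 w, f2_interior hw, ?_⟩
      rw [dist_f2, pow_succ]
      have : 0 ≤ (Real.sqrt 2)⁻¹ := by positivity
      nlinarith

theorem T_closure : T = closure (interior T) := by
  apply Subset.antisymm
  · intro z hz
    rw [Metric.mem_closure_iff]
    intro ε hε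
    have hlt : (Real.sqrt 2)⁻¹ < 1 := by
      apply inv_lt_one_of_one_lt₀
      rw [Real.lt_sqrt (by norm_num)]
      norm_num
    obtain ⟨n, hn⟩ := exists_pow_lt_of_lt_one (show 0 < ε / 8 by positivity) hlt
    obtain ⟨w, hw, hd⟩ := T_near_interior n z hz
    exact ⟨w, hw, by linarith⟩
  · exact closure_minimal interior_subset isCompact_T.isClosed

end Pool.Agent.Lib.MP_25e24e_co
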