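import Mathlib

/-!
# The Lévy dragon

`T` is the attractor of the two maps `f1 z = ((1 + i)/2) z` and
`f2 z = ((1 - i)/2) z + (1 + i)/2` of the complex plane.
-/

namespace Pool.Agent.Lib.MP_25e24e_co

open Complex Set

noncomputable def f1 (z : ℂ) : ℂ := ((1 + I) / 2) * z

noncomputable def f2 (z : ℂ) : ℂ := ((1 - I) / 2) * z + (1 + I) / 2

theorem f1_mk (x y : ℝ) : f1 ⟨x, y⟩ = ⟨(x - y) / 2, (x + y) / 2⟩ := by
  apply Complex.ext <;> simp [f1] <;> ring

theorem f2_mk (x y : ℝ) : f2 ⟨x, y⟩ = ⟨(x + y + 1) / 2, (y - x + 1) / 2⟩ := by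
  apply Complex.ext <;> simp [f2] <;> ring

theorem f1_inv {x y x' y' : ℝ} (h : f1 ⟨x, y⟩ = ⟨x', y'⟩) : x = x' + y' ∧ y = y' - x' := by
  rw [f1_mk, Complex.mk.injEq] at h
  constructor <;> linarith [h.1, h.2]

theorem f2_inv {x y x' y' : ℝ} (h : f2 ⟨x, y⟩ = ⟨x', y'⟩) : x = x' - y' ∧ y = x' + y' - 1 := by
  rw [f2_mk, Complex.mk.injEq] at h
  constructor <;> linarith [h.1, h.2]

/-- a trapping region -/
def D : Set ℂ := {z | (z.re - 1 / 2) ^ 2 + z.im ^ 2 ≤ 25 / 16}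

theorem isCompact_D : IsCompact D := by
  refine Metric.isCompact_of_isClosed_isBounded ?_ ?_
  · exact isClosed_le (by fun_prop) (by fun_prop)
  · rw [isBounded_iff_forall_norm_le]
    refine ⟨4, ?_⟩
    intro z hz
    have hz' : (z.re - 1 / 2) ^ 2 + z.im ^ 2 ≤ 25 / 16 := hz
    have h1 : |z.re| ≤ 2 := by
      rw [abs_le]
      constructor <;> nlinarith [sq_nonneg z.im, sq_nonneg (z.re - 1 / 2)]
    have h2 : |z.im| ≤ 2 := by
      rw [abs_le]
      constructor <;> nlinarith [sq_nonneg z.im, sq_nonneg (z.re - 1 / 2)]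
    calc ‖z‖ ≤ |z.re| + |z.im| := Complex.norm_le_abs_re_add_abs_im z
      _ ≤ 4 := by linarith

theorem f1_mem_D {z : ℂ} (hz : z ∈ D) : f1 z ∈ D := by
  obtain ⟨x, y⟩ := z
  rw [f1_mk]
  simp only [D, mem_ofPred_eq] at hz ⊢
  nlinarith [sq_nonneg (x - 1/2 + y), sq_nonneg (x - 1/2 - y), sq_nonneg (x - 1/2),
    sq_nonneg (x + 3/4), sq_nonneg y, sq_nonneg (x - 7/4), sq_nonneg (y - 5/4), sq_nonneg (y + 5/4)]

theorem f2_mem_D {z : ℂ} (hz : z ∈ D) : f2 z ∈ D := by
  obtain ⟨x, y⟩ := z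
  rw [f2_mk]
  simp only [D, mem_ofPred_eq] at hz ⊢
  nlinarith [sq_nonneg (x - 1/2 + y), sq_nonneg (x - 1/2 - y), sq_nonneg (x - 1/2),
    sq_nonneg (x + 3/4), sq_nonneg y, sq_nonneg (x - 7/4), sq_nonneg (y - 5/4), sq_nonneg (y + 5/4)]

/-- Hutchinson's operator -/
def H (X : Set ℂ) : Set ℂ := f1 '' X ∪ f2 '' X

theorem H_mono {X Y : Set ℂ} (h : X ⊆ Y) : H X ⊆ H Y :=
  union_subset_union (image_mono h) (image_mono h)

/-- the approximations of `T` -/
def A : ℕ → Set ℂ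
  | 0 => D
  | n + 1 => H (A n)

/-- the Lévy dragon -/
def T : Set ℂ := ⋂ n, A n

theorem continuous_f1 : Continuous f1 := by unfold f1; fun_prop

theorem continuous_f2 : Continuous f2 := by unfold f2; fun_prop

theorem isCompact_A (n : ℕ) : IsCompact (A n) := by
  induction n with
  | zero => exact isCompact_D
  | succ n ih => exact (ih.image continuous_f1).union (ih.image continuous_f2)

theorem A_succ_subset (n : ℕ) : A (n + 1) ⊆ A n := by
  induction n with
  | zero =>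
    rintro z (⟨w, hw, rfl⟩ | ⟨w, hw, rfl⟩)
    · exact f1_mem_D hw
    · exact f2_mem_D hw
  | succ n ih => exact H_mono ih

theorem A_antitone : Antitone A := antitone_nat_of_succ_le A_succ_subset

theorem isCompact_T : IsCompact T :=
  (isCompact_A 0).of_isClosed_subset (isClosed_iInter fun n => (isCompact_A n).isClosed)
    (iInter_subset _ 0)

theorem T_subset_D : T ⊆ D := iInter_subset A 0

/-- a bounded set contained in its image is contained in `T` -/
theorem subset_T {X : Set ℂ} (hD : X ⊆ D) (hX : X ⊆ H X) : X ⊆ T := by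
  refine subset_iInter fun n => ?_
  induction n with
  | zero => exact hD
  | succ n ih => exact hX.trans (H_mono ih)

theorem injective_f1 : Function.Injective f1 := by
  rintro ⟨x, y⟩ ⟨x', y'⟩ h
  rw [f1_mk, f1_mk, Complex.mk.injEq] at h
  apply Complex.ext <;> simp <;> linarith [h.1, h.2]

theorem injective_f2 : Function.Injective f2 := by
  rintro ⟨x, y⟩ ⟨x', y'⟩ h
  rw [f2_mk, f2_mk, Complex.mk.injEq] at h
  apply Complex.ext <;> simp <;> linarith [h.1, h.2]

theorem T_eq : T = H T := by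
  apply Subset.antisymm
  · intro z hz
    by_contra hcon
    simp only [H, mem_union, not_or] at hcon
    obtain ⟨h1, h2⟩ := hcon
    have e1 : ∃ n, z ∉ f1 '' A n := by
      by_contra hc
      push Not at hc
      apply h1
      obtain ⟨w, -, hw⟩ := hc 0
      refine ⟨w, mem_iInter.2 fun n => ?_, hw⟩
      obtain ⟨w', hw', hw''⟩ := hc n
      rw [injective_f1 (hw.trans hw''.symm)]
      exact hw'
    have e2 : ∃ n, z ∉ f2 '' A n := by
      by_contra hc
      push Not at hc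
      apply h2
      obtain ⟨w, -, hw⟩ := hc 0
      refine ⟨w, mem_iInter.2 fun n => ?_, hw⟩
      obtain ⟨w', hw', hw''⟩ := hc n
      rw [injective_f2 (hw.trans hw''.symm)]
      exact hw'
    obtain ⟨n1, hn1⟩ := e1
    obtain ⟨n2, hn2⟩ := e2
    have hz' : z ∈ A (max n1 n2 + 1) := mem_iInter.1 hz _
    rcases hz' with h | h
    · exact hn1 (image_mono (A_antitone (le_max_left n1 n2)) h)
    · exact hn2 (image_mono (A_antitone (le_max_right n1 n2)) h)
  · refine subset_iInter fun n => ?_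
    cases n with
    | zero => exact (H_mono (iInter_subset A 0)).trans (A_succ_subset 0)
    | succ n => exact H_mono (iInter_subset A n)

theorem f1_T {z : ℂ} (h : z ∈ T) : f1 z ∈ T := by
  rw [T_eq]; exact Or.inl ⟨z, h, rfl⟩

theorem f2_T {z : ℂ} (h : z ∈ T) : f2 z ∈ T := by
  rw [T_eq]; exact Or.inr ⟨z, h, rfl⟩

/-- the backward orbit -/
theorem mem_T_cases {x y : ℝ} (h : (⟨x, y⟩ : ℂ) ∈ T) :
    (⟨x + y, y - x⟩ : ℂ) ∈ T ∨ (⟨x - y, x + y - 1⟩ : ℂ) ∈ T := by
  rw [T_eq] at h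
  rcases h with ⟨⟨a, b⟩, hw, he⟩ | ⟨⟨a, b⟩, hw, he⟩
  · left
    obtain ⟨h1, h2⟩ := f1_inv he
    rw [h1, h2] at hw
    exact hw
  · right
    obtain ⟨h1, h2⟩ := f2_inv he
    rw [h1, h2] at hw
    exact hw

theorem mem_T_bound {x y : ℝ} (h : (⟨x, y⟩ : ℂ) ∈ T) : (x - 1 / 2) ^ 2 + y ^ 2 ≤ 25 / 16 :=
  T_subset_D h

/-- The upper edge of the convex hull of `T` belongs to `T`. -/
theorem top_edge {t : ℝ} (h0 : 0 ≤ t) (h1 : t ≤ 1) : (⟨t, 1⟩ : ℂ) ∈ T := by
  let S : Set ℂ := {z | ∃ t : ℝ, 0 ≤ t ∧ t ≤ 1 ∧ z = ⟨t, 1⟩}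
  have hS : S ⊆ f1 '' (f2 '' S) ∪ f2 '' (f1 '' S) := by
    rintro _ ⟨t, h0, h1, rfl⟩
    by_cases ht : t ≤ 1 / 2
    · left
      refine ⟨_, ⟨_, ⟨2 * t, by linarith, by linarith, rfl⟩, rfl⟩, ?_⟩
      rw [f2_mk, f1_mk]
      congr 1 <;> ring
    · right
      refine ⟨_, ⟨_, ⟨2 * t - 1, by linarith, by linarith, rfl⟩, rfl⟩, ?_⟩
      rw [f1_mk, f2_mk]
      congr 1 <;> ring
  have hSD : S ⊆ D := by
    rintro _ ⟨t, h0, h1, rfl⟩
    simp only [D, mem_ofPred_eq]
    nlinarith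
  have hX : S ∪ (f1 '' S ∪ f2 '' S) ⊆ T := by
    apply subset_T
    · refine union_subset hSD (union_subset ?_ ?_)
      · rintro _ ⟨z, hz, rfl⟩; exact f1_mem_D (hSD hz)
      · rintro _ ⟨z, hz, rfl⟩; exact f2_mem_D (hSD hz)
    · rintro z (hz | hz | hz)
      · rcases hS hz with h | h
        · exact Or.inl (image_mono (subset_union_right.trans subset_union_right) h)
        · exact Or.inr (image_mono (subset_union_left.trans subset_union_right) h)
      · exact Or.inl (image_mono subset_union_left hz)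
      · exact Or.inr (image_mono subset_union_left hz)
  exact hX (Or.inl ⟨t, h0, h1, rfl⟩)

end Pool.Agent.Lib.MP_25e24e_co
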