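import Pool.Agent.Lib.MP_25e24e_co.Defs
import Pool.Agent.Lib.MP_25e24e_co.Interior
import Pool.Agent.Lib.MP_25e24e_co.Hole

/-!
The Lévy dragon is a `2`-reptile.
-/

namespace Pool.Agent.Lib.MP_25e24e_co

open Complex Set MeasureTheory
open scoped Pointwise

/-- the unit complex number `√2 (1 + i) / 2` -/
noncomputable def u1 : Circle := ⟨(Real.sqrt 2 : ℂ) * ((1 + I) / 2), by
  show _ ∈ Metric.sphere (0 : ℂ) 1
  rw [mem_sphere_zero_iff_norm, norm_mul, norm_c, Complex.norm_real, Real.norm_eq_abs,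
    abs_of_nonneg (Real.sqrt_nonneg 2), mul_inv_cancel₀ (by positivity)]⟩

noncomputable def u2 : Circle := ⟨(Real.sqrt 2 : ℂ) * ((1 - I) / 2), by
  show _ ∈ Metric.sphere (0 : ℂ) 1
  rw [mem_sphere_zero_iff_norm, norm_mul, norm_c', Complex.norm_real, Real.norm_eq_abs,
    abs_of_nonneg (Real.sqrt_nonneg 2), mul_inv_cancel₀ (by positivity)]⟩

noncomputable def g1 : ℂ ≃ᵢ ℂ := (rotation u1).toIsometryEquiv

noncomputable def g2 : ℂ ≃ᵢ ℂ :=
  ((rotation u2).toIsometryEquiv).trans (IsometryEquiv.addRight ((1 + I) / 2))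

theorem sqrt_two_cancel (z w : ℂ) :
    (Real.sqrt 2 : ℂ) * w * (((Real.sqrt 2)⁻¹ : ℝ) • z) = w * z := by
  rw [Complex.real_smul]
  have h : (Real.sqrt 2 : ℂ) ≠ 0 := by
    exact_mod_cast (by positivity : Real.sqrt 2 ≠ 0)
  push_cast
  field_simp

theorem g1_image (X : Set ℂ) : g1 '' ((Real.sqrt 2)⁻¹ • X) = f1 '' X := by
  ext z
  constructor
  · rintro ⟨_, ⟨x, hx, rfl⟩, rfl⟩
    refine ⟨x, hx, ?_⟩
    show f1 x = (Real.sqrt 2 : ℂ) * ((1 + I) / 2) * (((Real.sqrt 2)⁻¹ : ℝ) • x)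
    rw [sqrt_two_cancel]; rfl
  · rintro ⟨x, hx, rfl⟩
    refine ⟨_, ⟨x, hx, rfl⟩, ?_⟩
    show (Real.sqrt 2 : ℂ) * ((1 + I) / 2) * (((Real.sqrt 2)⁻¹ : ℝ) • x) = f1 x
    rw [sqrt_two_cancel]; rfl

theorem g2_image (X : Set ℂ) : g2 '' ((Real.sqrt 2)⁻¹ • X) = f2 '' X := by
  ext z
  constructor
  · rintro ⟨_, ⟨x, hx, rfl⟩, rfl⟩
    refine ⟨x, hx, ?_⟩
    show f2 x = (Real.sqrt 2 : ℂ) * ((1 - I) / 2) * (((Real.sqrt 2)⁻¹ : ℝ) • x) + (1 + I) / 2
    rw [sqrt_two_cancel]; rfl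
  · rintro ⟨x, hx, rfl⟩
    refine ⟨_, ⟨x, hx, rfl⟩, ?_⟩
    show (Real.sqrt 2 : ℂ) * ((1 - I) / 2) * (((Real.sqrt 2)⁻¹ : ℝ) • x) + (1 + I) / 2 = f2 x
    rw [sqrt_two_cancel]; rfl

theorem volume_image_linearIsometry (e : ℂ ≃ₗᵢ[ℝ] ℂ) (X : Set ℂ) :
    volume (e '' X) = volume X := by
  have h := (e.measurePreserving).measure_preimage_emb
    e.toHomeomorph.measurableEmbedding (e '' X)
  rw [← h, e.injective.preimage_image]

theorem volume_f1 : volume (f1 '' T) = volume T / 2 := by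
  have h1 : volume (g1 '' ((Real.sqrt 2)⁻¹ • T)) = volume ((Real.sqrt 2)⁻¹ • T) :=
    volume_image_linearIsometry (rotation u1) _
  rw [← g1_image, h1, Measure.addHaar_smul, Complex.finrank_real_complex, inv_pow,
    Real.sq_sqrt (by norm_num : (0:ℝ) ≤ 2), abs_of_pos (by norm_num : (0:ℝ) < 2⁻¹),
    ENNReal.ofReal_inv_of_pos (by norm_num), ENNReal.ofReal_ofNat, mul_comm,
    ENNReal.div_eq_inv_mul, mul_comm]

theorem volume_f2 : volume (f2 '' T) = volume T / 2 := by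
  have h1 : volume (g2 '' ((Real.sqrt 2)⁻¹ • T)) = volume ((Real.sqrt 2)⁻¹ • T) := by
    have : g2 '' ((Real.sqrt 2)⁻¹ • T) = (fun z : ℂ => z + (1 + I) / 2) ''
        ((rotation u2) '' ((Real.sqrt 2)⁻¹ • T)) := by
      rw [image_image]; rfl
    rw [this]
    rw [show (fun z : ℂ => z + (1 + I) / 2) = (fun z : ℂ => z + (1 + I) / 2) from rfl,
      image_add_right, measure_preimage_add_right]
    exact volume_image_linearIsometry (rotation u2) _
  rw [← g2_image, h1, Measure.addHaar_smul, Complex.finrank_real_complex, inv_pow,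
    Real.sq_sqrt (by norm_num : (0:ℝ) ≤ 2), abs_of_pos (by norm_num : (0:ℝ) < 2⁻¹),
    ENNReal.ofReal_inv_of_pos (by norm_num), ENNReal.ofReal_ofNat, mul_comm,
    ENNReal.div_eq_inv_mul, mul_comm]

theorem volume_inter : volume (f1 '' T ∩ f2 '' T) = 0 := by
  have hT : volume T ≠ ⊤ := isCompact_T.measure_lt_top.ne
  have hm2 : MeasurableSet (f2 '' T) := (isCompact_T.image continuous_f2).measurableSet
  have h := measure_union_add_inter (μ := volume) (f1 '' T) hm2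
  have hu : f1 '' T ∪ f2 '' T = T := T_eq.symm
  rw [hu, volume_f1, volume_f2, ENNReal.add_halves] at h
  have h' : volume T + volume (f1 '' T ∩ f2 '' T) = volume T + 0 := by rw [h, add_zero]
  exact (ENNReal.add_right_inj hT).1 h'

theorem disjoint_interiors : Disjoint (interior (f1 '' T)) (interior (f2 '' T)) := by
  rw [Set.disjoint_iff_inter_eq_empty]
  by_contra hne
  have hne' : (interior (f1 '' T) ∩ interior (f2 '' T)).Nonempty := nonempty_iff_ne_empty.2 hne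
  have hpos := (isOpen_interior.inter isOpen_interior).measure_pos volume hne'
  have hle : volume (interior (f1 '' T) ∩ interior (f2 '' T)) ≤ volume (f1 '' T ∩ f2 '' T) :=
    measure_mono (inter_subset_inter interior_subset interior_subset)
  rw [volume_inter] at hle
  exact absurd hpos (not_lt.2 hle)

theorem T_isTile : IsTile T :=
  ⟨interior_T_nonempty.mono interior_subset, isCompact_T.isBounded, T_closure⟩

theorem T_isReptile : IsReptile 2 T := by
  refine ⟨T_isTile, ![g1, g2], ?_, ?_⟩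
  · have h : (⋃ i, (![g1, g2] : Fin 2 → (ℂ ≃ᵢ ℂ)) i '' ((Real.sqrt (2 : ℕ))⁻¹ • T)) =
        f1 '' T ∪ f2 '' T := by
      rw [← g1_image T, ← g2_image T]
      ext z
      simp only [mem_iUnion, Fin.exists_fin_two, mem_union]
      norm_num
    rw [h]
    exact T_eq
  · have e1 : g1 '' ((Real.sqrt (2 : ℕ))⁻¹ • T) = f1 '' T := by
      rw [← g1_image T]; norm_num
    have e2 : g2 '' ((Real.sqrt (2 : ℕ))⁻¹ • T) = f2 '' T := by
      rw [← g2_image T]; norm_num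
    intro i j hij
    fin_cases i <;> fin_cases j
    · exact absurd rfl hij
    · show Disjoint (interior (g1 '' ((Real.sqrt (2 : ℕ))⁻¹ • T)))
        (interior (g2 '' ((Real.sqrt (2 : ℕ))⁻¹ • T)))
      rw [e1, e2]; exact disjoint_interiors
    · show Disjoint (interior (g2 '' ((Real.sqrt (2 : ℕ))⁻¹ • T)))
        (interior (g1 '' ((Real.sqrt (2 : ℕ))⁻¹ • T)))
      rw [e1, e2]; exact disjoint_interiors.symm
    · exact absurd rfl hij

theorem T_hasHole : HasHole T := ⟨_, hole.1, hole.2⟩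

section Transfer

variable {P Q : Type*} [NormedAddCommGroup P] [NormedSpace ℝ P] [NormedAddCommGroup Q]
  [NormedSpace ℝ Q]

theorem IsTile.map (φ : P ≃ₗᵢ[ℝ] Q) {X : Set P} (h : IsTile X) : IsTile (φ '' X) := by
  refine ⟨h.1.image φ, φ.lipschitz.isBounded_image h.2.1, ?_⟩
  have e := φ.toHomeomorph.image_closure (interior X)
  have e' := φ.toHomeomorph.image_interior X
  conv_lhs => rw [h.2.2]
  have e1 : φ '' closure (interior X) = closure (φ '' interior X) := e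
  have e2 : φ '' interior X = interior (φ '' X) := e'
  rw [e1, e2]

theorem IsReptile.map (φ : P ≃ₗᵢ[ℝ] Q) {n : ℕ} {X : Set P} (h : IsReptile n X) :
    IsReptile n (φ '' X) := by
  obtain ⟨ht, g, hg, hd⟩ := h
  let g' : Fin n → (Q ≃ᵢ Q) := fun i =>
    (φ.symm.toIsometryEquiv.trans (g i)).trans φ.toIsometryEquiv
  have hφ : ∀ x : P, φ.symm ((Real.sqrt n)⁻¹ • φ x) = (Real.sqrt n)⁻¹ • x := by
    intro x
    rw [← φ.map_smul, φ.symm_apply_apply]
  have key : ∀ i, g' i '' ((Real.sqrt n)⁻¹ • (φ '' X)) = φ '' (g i '' ((Real.sqrt n)⁻¹ • X)) := by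
    intro i
    ext z
    constructor
    · rintro ⟨_, ⟨_, ⟨x, hx, rfl⟩, rfl⟩, rfl⟩
      refine ⟨_, ⟨_, ⟨x, hx, rfl⟩, rfl⟩, ?_⟩
      show φ (g i ((Real.sqrt n)⁻¹ • x)) = φ (g i (φ.symm ((Real.sqrt n)⁻¹ • φ x)))
      rw [hφ]
    · rintro ⟨_, ⟨_, ⟨x, hx, rfl⟩, rfl⟩, rfl⟩
      refine ⟨_, ⟨_, ⟨x, hx, rfl⟩, rfl⟩, ?_⟩
      show φ (g i (φ.symm ((Real.sqrt n)⁻¹ • φ x))) = φ (g i ((Real.sqrt n)⁻¹ • x))
      rw [hφ]
  refine ⟨ht.map φ, g', ?_, ?_⟩
  · simp only [key]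
    rw [← image_iUnion, ← hg]
  · intro i j hij
    rw [key, key]
    have e1 : ∀ Y : Set P, interior (φ '' Y) = φ '' interior Y := fun Y =>
      (φ.toHomeomorph.image_interior Y).symm
    rw [e1, e1]
    exact (disjoint_image_iff φ.injective).2 (hd i j hij)

theorem HasHole.map (φ : P ≃ₗᵢ[ℝ] Q) {X : Set P} (h : HasHole X) : HasHole (φ '' X) := by
  obtain ⟨x, hx, hb⟩ := h
  refine ⟨φ x, fun hc => hx ((φ.injective.mem_set_image).1 hc), ?_⟩
  have e : φ '' (connectedComponentIn Xᶜ x) = connectedComponentIn (φ '' Xᶜ) (φ x) :=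
    φ.toHomeomorph.image_connectedComponentIn (s := Xᶜ) hx
  rw [← image_compl_eq φ.bijective, ← e]
  exact φ.lipschitz.isBounded_image hb

end Transfer

end Pool.Agent.Lib.MP_25e24e_co
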